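import Pool.Agent.helper5.PR.SpecM

set_option autoImplicit false

namespace Pool.Agent.PR

open Matrix

theorem M_FIN_pow {n : ℕ} (i j : Fin n) (hij : i ≠ j) (k : ℕ) :
    (Matrix.transvection i j (1 : ℤ)) ^ k = Matrix.transvection i j (k : ℤ) := by
  induction k with
  | zero => rw [pow_zero, Nat.cast_zero, Matrix.transvection_zero]
  | succ k ih =>
    rw [pow_succ, ih, Matrix.transvection_mul_transvection_same (h := hij)]
    push_cast
    rfl

theorem M_FIN (h : M_ALL_stmt) : M_FIN_stmt := by
  intro n hn N hN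
  have hfc : N.normalCore.FiniteIndex := inferInstance
  have hk : 1 ≤ N.normalCore.index := Nat.one_le_iff_ne_zero.2 hfc.index_ne_zero
  refine ⟨N.normalCore.index, hk, (h n hn _ hk N.normalCore ⟨inferInstance, ?_⟩).trans
    (Subgroup.normalCore_le N)⟩
  intro g i j hij hg
  obtain ⟨e, he⟩ : ∃ e : SpecialLinearGroup (Fin n) ℤ,
      (e : Matrix (Fin n) (Fin n) ℤ) = Matrix.transvection i j (1 : ℤ) :=
    ⟨⟨Matrix.transvection i j (1 : ℤ), Matrix.det_transvection_of_ne i j hij 1⟩, rfl⟩
  have h1 : g = e ^ N.normalCore.index := by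
    have h3 := Matrix.SpecialLinearGroup.coe_pow e N.normalCore.index
    rw [he, M_FIN_pow i j hij] at h3
    exact Subtype.ext (hg.trans h3.symm)
  rw [h1]
  exact Subgroup.pow_index_mem _ e

end Pool.Agent.PR
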